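import Mathlib

set_option autoImplicit false

namespace Pool.Agent.H899R2.Illum

open Real Topology

/-- the real inner product on `ℂ = ℝ²` -/
def ip (a b : ℂ) : ℝ := a.re * b.re + a.im * b.im

theorem ip_comm (a b : ℂ) : ip a b = ip b a := by unfold ip; ring

theorem ip_add_right (a b c : ℂ) : ip a (b + c) = ip a b + ip a c := by
  simp [ip]; ring

theorem ip_smul_right (a b : ℂ) (t : ℝ) : ip a (t • b) = t * ip a b := by
  simp [ip]; ring

theorem ip_neg_right (a b : ℂ) : ip a (-b) = - ip a b := by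
  simp [ip]; ring

theorem ip_zero_right (a : ℂ) : ip a 0 = 0 := by simp [ip]

theorem ip_zero_left (a : ℂ) : ip 0 a = 0 := by simp [ip]

theorem ip_self (a : ℂ) : ip a a = ‖a‖ ^ 2 := by
  rw [Complex.sq_norm, Complex.normSq_apply]; rfl

theorem ip_sq_le (a b : ℂ) : ip a b ^ 2 ≤ ‖a‖ ^ 2 * ‖b‖ ^ 2 := by
  rw [Complex.sq_norm, Complex.sq_norm, Complex.normSq_apply, Complex.normSq_apply]
  unfold ip
  nlinarith [sq_nonneg (a.re * b.im - a.im * b.re)]

theorem ip_le (a b : ℂ) : ip a b ≤ ‖a‖ * ‖b‖ := by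
  have h := ip_sq_le a b
  rw [← mul_pow] at h
  exact (le_abs_self _).trans (abs_le_of_sq_le_sq h (by positivity))

theorem norm_add_sq (a b : ℂ) : ‖a + b‖ ^ 2 = ‖a‖ ^ 2 + 2 * ip a b + ‖b‖ ^ 2 := by
  simp only [Complex.sq_norm, Complex.normSq_apply, ip, Complex.add_re, Complex.add_im]
  ring

theorem eq_of_ip_eq_one {a b : ℂ} (ha : ‖a‖ ≤ 1) (hb : ‖b‖ ≤ 1) (h : ip a b = 1) : a = b := by
  have h1 : ‖a + -b‖ ^ 2 = ‖a‖ ^ 2 + 2 * ip a (-b) + ‖-b‖ ^ 2 := norm_add_sq a (-b)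
  rw [ip_neg_right, h, norm_neg] at h1
  have h2 : ‖a + -b‖ ^ 2 ≤ 0 := by nlinarith [norm_nonneg a, norm_nonneg b]
  have h3 : ‖a + -b‖ = 0 := by nlinarith [norm_nonneg (a + -b)]
  rw [norm_eq_zero] at h3
  linear_combination h3

/-- the vertices of the regular `N`-gon -/
noncomputable def m (N : ℕ) (j : Fin N) : ℂ :=
  ⟨cos (2 * π * (j : ℕ) / N), sin (2 * π * (j : ℕ) / N)⟩

theorem norm_m {N : ℕ} (j : Fin N) : ‖m N j‖ = 1 := by
  have h : ‖m N j‖ ^ 2 = 1 := by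
    rw [← ip_self]
    simp [ip, m]
    nlinarith [sin_sq_add_cos_sq (2 * π * (j : ℕ) / N)]
  nlinarith [norm_nonneg (m N j), sq_nonneg (‖m N j‖ - 1)]

theorem ip_m_self {N : ℕ} (j : Fin N) : ip (m N j) (m N j) = 1 := by
  rw [ip_self, norm_m]; norm_num

theorem ip_m_m {N : ℕ} (j k : Fin N) :
    ip (m N j) (m N k) = cos (2 * π * (j : ℕ) / N - 2 * π * (k : ℕ) / N) := by
  rw [cos_sub]; rfl

theorem cos_le_of_ne {N : ℕ} {j k : Fin N} (h : j < k) :
    cos (2 * π * (k : ℕ) / N - 2 * π * (j : ℕ) / N) ≤ cos (2 * π / N) := by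
  have hN : (0 : ℝ) < N := by
    have := j.pos
    exact_mod_cast this
  have h1 : ((j : ℕ) : ℝ) + 1 ≤ (k : ℕ) := by exact_mod_cast h
  have h2 : ((k : ℕ) : ℝ) + 1 ≤ N := by exact_mod_cast k.isLt
  have h3 : (0 : ℝ) ≤ (j : ℕ) := by positivity
  have e : 2 * π * (k : ℕ) / N - 2 * π * (j : ℕ) / N = (2 * π / N) * ((k : ℕ) - (j : ℕ)) := by
    ring
  rw [e]
  have hp := pi_pos
  set u : ℝ := 2 * π / N with hu
  have hu0 : 0 < u := by positivity
  have huN : u * N = 2 * π := by rw [hu]; field_simp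
  set D : ℝ := (k : ℕ) - (j : ℕ) with hD
  have hD1 : 1 ≤ D := by linarith
  have hD2 : D ≤ N - 1 := by linarith
  have hlo : u ≤ u * D := by nlinarith
  have hhi : u * D ≤ 2 * π - u := by nlinarith
  by_cases hc : u * D ≤ π
  · exact cos_le_cos_of_nonneg_of_le_pi hu0.le hc hlo
  · have h5 : cos (u * D) = cos (2 * π - u * D) := by rw [cos_two_pi_sub]
    rw [h5]
    exact cos_le_cos_of_nonneg_of_le_pi hu0.le (by linarith [not_le.1 hc]) (by linarith)

theorem ip_m_ne {N : ℕ} {j k : Fin N} (h : j ≠ k) : ip (m N j) (m N k) ≤ cos (2 * π / N) := by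
  rcases lt_or_gt_of_ne h with h | h
  · rw [ip_comm, ip_m_m]; exact cos_le_of_ne h
  · rw [ip_m_m]; exact cos_le_of_ne h

/-- every unit vector is closer than one step to a vertex -/
theorem exists_close {N : ℕ} (hN : 2 ≤ N) {q : ℂ} (hq : ‖q‖ = 1) :
    ∃ j : Fin N, cos (2 * π / N) < ip (m N j) q := by
  have hp := pi_pos
  have hN0 : (0 : ℝ) < N := by positivity
  obtain ⟨φ, h0, h1, hre, him⟩ : ∃ φ : ℝ, 0 ≤ φ ∧ φ < 2 * π ∧ q.re = cos φ ∧ q.im = sin φ := by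
    have h2 := Complex.cos_arg (x := q) (by rintro rfl; simp at hq)
    have h3 := Complex.sin_arg q
    rw [hq, div_one] at h2 h3
    by_cases h : 0 ≤ q.arg
    · exact ⟨q.arg, h, by linarith [Complex.arg_le_pi q], h2.symm, h3.symm⟩
    · refine ⟨q.arg + 2 * π, by linarith [Complex.neg_pi_lt_arg q], by linarith, ?_, ?_⟩
      · rw [cos_add_two_pi, h2]
      · rw [sin_add_two_pi, h3]
  set t : ℝ := φ * N / (2 * π) with ht
  have ht0 : 0 ≤ t := by positivity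
  have htN : t < N := by
    rw [ht, div_lt_iff₀ (by positivity)]
    nlinarith
  have hfl : ⌊t⌋₊ < N := (Nat.floor_lt ht0).2 htN
  refine ⟨⟨⌊t⌋₊, hfl⟩, ?_⟩
  have h4 := Nat.floor_le ht0
  have h5 := Nat.lt_floor_add_one t
  have e : ip (m N ⟨⌊t⌋₊, hfl⟩) q = cos (φ - 2 * π * (⌊t⌋₊ : ℝ) / N) := by
    rw [cos_sub]
    simp only [ip, m, hre, him]
    ring
  rw [e]
  have h6 : φ = t * (2 * π / N) := by
    rw [ht]; field_simp
  set u : ℝ := 2 * π / N with hu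
  have hu0 : 0 < u := by positivity
  have e2 : φ - 2 * π * (⌊t⌋₊ : ℝ) / N = (t - ⌊t⌋₊) * u := by
    rw [h6, hu]; ring
  rw [e2]
  apply cos_lt_cos_of_nonneg_of_le_pi
  · nlinarith
  · rw [hu, div_le_iff₀ hN0]
    have : (2 : ℝ) ≤ N := by exact_mod_cast hN
    nlinarith
  · nlinarith

theorem cos_pos_of {N : ℕ} (hN : 5 ≤ N) : 0 < cos (2 * π / N) := by
  have hp := pi_pos
  have hN0 : (0 : ℝ) < N := by positivity
  have h5 : (5 : ℝ) ≤ N := by exact_mod_cast hN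
  apply cos_pos_of_mem_Ioo
  constructor
  · have : 0 < 2 * π / N := by positivity
    linarith
  · rw [div_lt_iff₀ hN0]
    nlinarith

theorem cos_lt_one_of {N : ℕ} (hN : 2 ≤ N) : cos (2 * π / N) < 1 := by
  have hp := pi_pos
  have hN0 : (0 : ℝ) < N := by positivity
  have h5 : (2 : ℝ) ≤ N := by exact_mod_cast hN
  have := cos_lt_cos_of_nonneg_of_le_pi (x := 0) (y := 2 * π / N) le_rfl
    (by rw [div_le_iff₀ hN0]; nlinarith) (by positivity)
  rwa [cos_zero] at this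

end Pool.Agent.H899R2.Illum
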