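import Mathlib

set_option autoImplicit false

namespace Pool.Agent.H899R2.Illum

open Topology

/-! Polar bodies: `K = {x | ∀ ℓ ∈ L, B ℓ x ≤ 1}` for a compact set `L` of parameters. -/

section polar

variable {F Λ : Type*} [NormedAddCommGroup F] [NormedSpace ℝ F] [TopologicalSpace Λ]

def polar (B : Λ → F → ℝ) (L : Set Λ) : Set F := {x | ∀ ℓ ∈ L, B ℓ x ≤ 1}

variable {B : Λ → F → ℝ} {L : Set Λ}

theorem isClosed_polar (hB : Continuous fun z : Λ × F => B z.1 z.2) : IsClosed (polar B L) := by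
  have : polar B L = ⋂ ℓ ∈ L, {x | B ℓ x ≤ 1} := by
    ext x; simp [polar]
  rw [this]
  refine isClosed_biInter fun ℓ _ => isClosed_le ?_ continuous_const
  exact hB.comp (by fun_prop : Continuous fun x : F => (ℓ, x))

theorem convex_polar
    (hlin : ∀ ℓ x y (a b : ℝ), B ℓ (a • x + b • y) = a * B ℓ x + b * B ℓ y) :
    Convex ℝ (polar B L) := by
  intro x hx y hy a b ha hb hab ℓ hℓ
  rw [hlin]
  nlinarith [hx ℓ hℓ, hy ℓ hℓ]

theorem interior_polar (hL : IsCompact L) (hB : Continuous fun z : Λ × F => B z.1 z.2)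
    (hlin : ∀ ℓ x y (a b : ℝ), B ℓ (a • x + b • y) = a * B ℓ x + b * B ℓ y) :
    interior (polar B L) = {x | ∀ ℓ ∈ L, B ℓ x < 1} := by
  apply Set.Subset.antisymm
  · intro x hx ℓ hℓ
    by_contra hcon
    have h1 : B ℓ x = 1 := le_antisymm (interior_subset hx ℓ hℓ) (not_lt.1 hcon)
    have h2 : Filter.Tendsto (fun t : ℝ => t • x + (0 : ℝ) • x) (𝓝 1) (𝓝 x) := by
      have : Continuous (fun t : ℝ => t • x + (0 : ℝ) • x) := by fun_prop
      have h3 := this.tendsto 1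
      simpa using h3
    have h4 : ∀ᶠ t : ℝ in 𝓝 1, t • x + (0 : ℝ) • x ∈ interior (polar B L) :=
      h2 (isOpen_interior.mem_nhds hx)
    obtain ⟨t, ht, hgt⟩ : ∃ t : ℝ, t • x + (0 : ℝ) • x ∈ interior (polar B L) ∧ 1 < t := by
      have h5 : ∃ᶠ t : ℝ in 𝓝 1, 1 < t := frequently_gt_nhds (1 : ℝ)
      exact (h5.and_eventually h4).exists.imp fun t h => ⟨h.2, h.1⟩
    have h6 := interior_subset ht ℓ hℓ
    rw [hlin, h1] at h6
    linarith
  · apply interior_maximal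
    · intro x hx ℓ hℓ
      exact (hx ℓ hℓ).le
    · rw [isOpen_iff_mem_nhds]
      intro x hx
      apply hL.eventually_forall_of_forall_eventually (P := fun x ℓ => B ℓ x < 1)
      intro ℓ hℓ
      have hc : Continuous fun z : F × Λ => B z.2 z.1 := hB.comp continuous_swap
      exact hc.continuousAt.eventually_lt continuousAt_const (hx ℓ hℓ)

theorem mem_frontier_polar (hL : IsCompact L) (hB : Continuous fun z : Λ × F => B z.1 z.2)
    (hlin : ∀ ℓ x y (a b : ℝ), B ℓ (a • x + b • y) = a * B ℓ x + b * B ℓ y) {x : F} :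
    x ∈ frontier (polar B L) ↔ x ∈ polar B L ∧ ∃ ℓ ∈ L, B ℓ x = 1 := by
  rw [(isClosed_polar hB).frontier_eq, interior_polar hL hB hlin, Set.mem_diff]
  refine and_congr_right fun hx => ?_
  simp only [Set.mem_setOf_eq, not_forall, not_lt, exists_prop]
  exact ⟨fun ⟨ℓ, h1, h2⟩ => ⟨ℓ, h1, le_antisymm (hx ℓ h1) h2⟩,
    fun ⟨ℓ, h1, h2⟩ => ⟨ℓ, h1, h2.ge⟩⟩

theorem illum_polar (hL : IsCompact L) (hB : Continuous fun z : Λ × F => B z.1 z.2)
    (hlin : ∀ ℓ x y (a b : ℝ), B ℓ (a • x + b • y) = a * B ℓ x + b * B ℓ y) {x a : F}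
    (hx : x ∈ polar B L) (ha : a ∈ polar B L) :
    (∃ ε : ℝ, 0 < ε ∧ ε < 1 ∧ (1 - ε) • x + ε • a ∈ interior (polar B L)) ↔
      ∀ ℓ ∈ L, ¬ (B ℓ x = 1 ∧ B ℓ a = 1) := by
  rw [interior_polar hL hB hlin]
  constructor
  · rintro ⟨ε, h0, h1, h2⟩ ℓ hℓ ⟨h3, h4⟩
    have := h2 ℓ hℓ
    rw [hlin, h3, h4] at this
    linarith
  · intro h
    refine ⟨1 / 2, by norm_num, by norm_num, fun ℓ hℓ => ?_⟩
    rw [hlin]
    have h1 := hx ℓ hℓ
    have h2 := ha ℓ hℓ
    by_contra hcon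
    exact h ℓ hℓ ⟨by linarith, by linarith⟩

end polar

/-! Transfer of primitive illuminating systems along linear homeomorphisms. -/

section inner

variable {E : Type*} [NormedAddCommGroup E] [NormedSpace ℝ E]

/-- `A ⊆ bd K` is an inner illuminating set of `K`. -/
def InnerIlluminating (K A : Set E) : Prop :=
  A ⊆ frontier K ∧ ∀ x ∈ frontier K, ∃ a ∈ A, ∃ ε : ℝ, 0 < ε ∧ ε < 1 ∧
    (1 - ε) • x + ε • a ∈ interior K

/-- If finitely many points `a i` illuminate and each is needed, their set is primitive. -/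
theorem primitive_inner {F ι : Type*} [NormedAddCommGroup F] [NormedSpace ℝ F] [Finite ι]
    (e : E ≃L[ℝ] F) {K : Set F} {a : ι → F} (hfr : ∀ i, a i ∈ frontier K)
    (hill : ∀ x ∈ frontier K, ∃ i, ∃ ε : ℝ, 0 < ε ∧ ε < 1 ∧ (1 - ε) • x + ε • a i ∈ interior K)
    (hwit : ∀ i, ∃ x ∈ frontier K, ∀ j, j ≠ i → ¬ ∃ ε : ℝ, 0 < ε ∧ ε < 1 ∧
      (1 - ε) • x + ε • a j ∈ interior K) :
    ∃ A : Set E, A.Finite ∧ A.ncard = Nat.card ι ∧ InnerIlluminating (e ⁻¹' K) A ∧
      ∀ C, C ⊂ A → ¬ InnerIlluminating (e ⁻¹' K) C := by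
  have hint : interior (e ⁻¹' K) = e ⁻¹' interior K := (e.toHomeomorph.preimage_interior K).symm
  have hfront : frontier (e ⁻¹' K) = e ⁻¹' frontier K := (e.toHomeomorph.preimage_frontier K).symm
  have hinj : Function.Injective a := by
    intro i j hij
    by_contra hne
    obtain ⟨x, hx, hx2⟩ := hwit i
    obtain ⟨l, hl⟩ := hill x hx
    by_cases h : l = i
    · subst h
      rw [hij] at hl
      exact hx2 j (Ne.symm hne) hl
    · exact hx2 l h hl
  have hinj2 : Function.Injective fun i => e.symm (a i) := e.symm.injective.comp hinj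
  refine ⟨Set.range fun i => e.symm (a i), Set.finite_range _, ?_, ⟨?_, ?_⟩, ?_⟩
  · rw [← Set.image_univ, Set.ncard_image_of_injective _ hinj2, Set.ncard_univ]
  · rintro _ ⟨i, rfl⟩
    rw [hfront, Set.mem_preimage, e.apply_symm_apply]
    exact hfr i
  · intro x hx
    rw [hfront] at hx
    obtain ⟨i, ε, h0, h1, h2⟩ := hill (e x) hx
    refine ⟨_, ⟨i, rfl⟩, ε, h0, h1, ?_⟩
    rw [hint, Set.mem_preimage]
    simpa using h2
  · rintro C hC ⟨-, hC2⟩
    obtain ⟨b, ⟨i, rfl⟩, hb⟩ := Set.exists_of_ssubset hC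
    obtain ⟨x, hx, hx2⟩ := hwit i
    obtain ⟨c, hc, ε, h0, h1, h2⟩ := hC2 (e.symm x) (by
      rw [hfront, Set.mem_preimage, e.apply_symm_apply]; exact hx)
    obtain ⟨j, rfl⟩ := hC.subset hc
    have hj : j ≠ i := by
      rintro rfl
      exact hb hc
    refine hx2 j hj ⟨ε, h0, h1, ?_⟩
    rw [hint, Set.mem_preimage] at h2
    simpa using h2

/-- `U` (a set of unit vectors) is an outer illuminating set of `K`. -/
def OuterIlluminating (K U : Set E) : Prop :=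
  (∀ u ∈ U, ‖u‖ = 1) ∧ ∀ x ∈ frontier K, ∃ u ∈ U, ∃ ε : ℝ, 0 < ε ∧ ε < 1 ∧
    x + ε • u ∈ interior K

theorem shrink_outer {K : Set E} (hconv : Convex ℝ K) (hcl : IsClosed K) {x u : E}
    (hx : x ∈ frontier K) (h : ∃ ε : ℝ, 0 < ε ∧ x + ε • u ∈ interior K) {δ : ℝ} (hδ : 0 < δ) :
    ∃ ε : ℝ, 0 < ε ∧ ε < δ ∧ x + ε • u ∈ interior K := by
  obtain ⟨ε, h0, h1⟩ := h
  have hxK : x ∈ K := hcl.frontier_subset hx
  obtain ⟨t, ht0, ht1, ht2⟩ : ∃ t : ℝ, 0 < t ∧ t ≤ 1 ∧ t * ε < δ := by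
    refine ⟨min 1 (δ / (2 * ε)), by positivity, min_le_left _ _, ?_⟩
    have h3 : min 1 (δ / (2 * ε)) * ε ≤ δ / (2 * ε) * ε :=
      mul_le_mul_of_nonneg_right (min_le_right _ _) h0.le
    have h4 : δ / (2 * ε) * ε = δ / 2 := by field_simp
    linarith
  refine ⟨t * ε, by positivity, ht2, ?_⟩
  have h5 := hconv.add_smul_mem_interior hxK h1 (t := t) ⟨ht0, ht1⟩
  rwa [smul_smul] at h5

/-- If finitely many directions `u i` illuminate and each is needed, their normalisations form a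
primitive outer illuminating set. -/
theorem primitive_outer {F ι : Type*} [NormedAddCommGroup F] [NormedSpace ℝ F] [Finite ι]
    (e : E ≃L[ℝ] F) {K : Set F} (hconv : Convex ℝ K) (hcl : IsClosed K) {u : ι → F}
    (hu : ∀ i, u i ≠ 0)
    (hill : ∀ x ∈ frontier K, ∃ i, ∃ ε : ℝ, 0 < ε ∧ x + ε • u i ∈ interior K)
    (hwit : ∀ i, ∃ x ∈ frontier K, ∀ j, j ≠ i → ¬ ∃ ε : ℝ, 0 < ε ∧
      x + ε • u j ∈ interior K) :
    ∃ U : Set E, U.Finite ∧ U.ncard = Nat.card ι ∧ OuterIlluminating (e ⁻¹' K) U ∧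
      ∀ C, C ⊂ U → ¬ OuterIlluminating (e ⁻¹' K) C := by
  have hint : interior (e ⁻¹' K) = e ⁻¹' interior K := (e.toHomeomorph.preimage_interior K).symm
  have hfront : frontier (e ⁻¹' K) = e ⁻¹' frontier K := (e.toHomeomorph.preimage_frontier K).symm
  have hpos : ∀ i, 0 < ‖e.symm (u i)‖ := fun i => norm_pos_iff.2 (by simpa using hu i)
  set v : ι → E := fun i => ‖e.symm (u i)‖⁻¹ • e.symm (u i) with hv
  have hinj : Function.Injective v := by
    intro i j hij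
    by_contra hne
    obtain ⟨x, hx, hx2⟩ := hwit i
    obtain ⟨l, ε, h0, h1⟩ := hill x hx
    by_cases h : l = i
    · subst h
      refine hx2 j (Ne.symm hne) ⟨ε * ‖e.symm (u l)‖ * ‖e.symm (u j)‖⁻¹, ?_, ?_⟩
      · have := hpos l
        have := hpos j
        positivity
      · have h3 : e (v l) = e (v j) := by rw [hij]
        simp only [hv, map_smul, e.apply_symm_apply] at h3
        rw [mul_assoc, mul_smul, mul_smul, ← h3, smul_smul ‖e.symm (u l)‖,
          mul_inv_cancel₀ (hpos l).ne', one_smul]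
        exact h1
    · exact hx2 l h ⟨ε, h0, h1⟩
  refine ⟨Set.range v, Set.finite_range _, ?_, ⟨?_, ?_⟩, ?_⟩
  · rw [← Set.image_univ, Set.ncard_image_of_injective _ hinj, Set.ncard_univ]
  · rintro _ ⟨i, rfl⟩
    simp only [hv]
    rw [norm_smul, norm_inv, norm_norm, inv_mul_cancel₀ (hpos i).ne']
  · intro x hx
    rw [hfront] at hx
    obtain ⟨i, hi⟩ := hill (e x) hx
    obtain ⟨ε, h0, h1, h2⟩ := shrink_outer hconv hcl hx hi
      (δ := ‖e.symm (u i)‖⁻¹) (inv_pos.2 (hpos i))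
    refine ⟨v i, ⟨i, rfl⟩, ε * ‖e.symm (u i)‖, by have := hpos i; positivity, ?_, ?_⟩
    · rwa [← lt_div_iff₀ (hpos i), one_div]
    · rw [hint, Set.mem_preimage]
      simp only [hv, map_add, map_smul, e.apply_symm_apply]
      rw [mul_smul, smul_smul ‖e.symm (u i)‖, mul_inv_cancel₀ (hpos i).ne', one_smul]
      exact h2
  · rintro C hC ⟨-, hC2⟩
    obtain ⟨b, ⟨i, rfl⟩, hb⟩ := Set.exists_of_ssubset hC
    obtain ⟨x, hx, hx2⟩ := hwit i
    obtain ⟨c, hc, ε, h0, h1, h2⟩ := hC2 (e.symm x) (by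
      rw [hfront, Set.mem_preimage, e.apply_symm_apply]; exact hx)
    obtain ⟨j, rfl⟩ := hC.subset hc
    have hj : j ≠ i := by
      rintro rfl
      exact hb hc
    refine hx2 j hj ⟨ε * ‖e.symm (u j)‖⁻¹, by have := hpos j; positivity, ?_⟩
    rw [hint, Set.mem_preimage] at h2
    simp only [hv, map_add, map_smul, e.apply_symm_apply] at h2
    rw [mul_smul]
    exact h2

end inner

end Pool.Agent.H899R2.Illum
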