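import Pool.Agent.H899R2.Illum.Basic
import Pool.Agent.H899R2.Illum.Polar

set_option autoImplicit false

namespace Pool.Agent.H899R2.Illum

open Real Topology

/-- the model space `ℝ² × ℝ² × ℝᵏ` -/
abbrev F (k : ℕ) := ℂ × ℂ × (Fin k → ℝ)

def B (k : ℕ) (l x : F k) : ℝ := ip l.1 x.1 + ip l.2.1 x.2.1 + ∑ i, l.2.2 i * x.2.2 i

theorem continuous_B (k : ℕ) : Continuous fun z : F k × F k => B k z.1 z.2 := by
  unfold B ip
  fun_prop

theorem B_lin (k : ℕ) (l x y : F k) (a b : ℝ) : B k l (a • x + b • y) = a * B k l x + b * B k l y := by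
  simp only [B, ip, Prod.fst_add, Prod.snd_add, Prod.smul_fst, Prod.smul_snd, Complex.add_re,
    Complex.add_im, Complex.real_smul, Complex.mul_re, Complex.mul_im, Complex.ofReal_re,
    Complex.ofReal_im, Pi.add_apply, Pi.smul_apply, smul_eq_mul]
  have : ∑ i, l.2.2 i * (a * x.2.2 i + b * y.2.2 i) =
      a * ∑ i, l.2.2 i * x.2.2 i + b * ∑ i, l.2.2 i * y.2.2 i := by
    rw [Finset.mul_sum, Finset.mul_sum, ← Finset.sum_add_distrib]
    exact Finset.sum_congr rfl fun i _ => by ring
  rw [this]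
  ring

noncomputable def L (N k : ℕ) : Set (F k) :=
  {l | ‖l.1‖ ≤ 1 ∧ ‖l.2.1‖ ≤ 1 ∧ (∀ i, ‖l.2.2 i‖ ≤ 1) ∧
    ∀ j : Fin N, ip (m N j) l.1 + ip (m N j) l.2.1 ≤ 1 + cos (2 * π / N)}

theorem isCompact_L (N k : ℕ) : IsCompact (L N k) := by
  apply Metric.isCompact_of_isClosed_isBounded
  · have : L N k = {l | ‖l.1‖ ≤ 1} ∩ ({l | ‖l.2.1‖ ≤ 1} ∩ ((⋂ i, {l | ‖l.2.2 i‖ ≤ 1}) ∩
        ⋂ j : Fin N, {l | ip (m N j) l.1 + ip (m N j) l.2.1 ≤ 1 + cos (2 * π / N)})) := by
      ext l
      simp [L]
    rw [this]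
    refine (isClosed_le (by fun_prop) continuous_const).inter
      ((isClosed_le (by fun_prop) continuous_const).inter
      ((isClosed_iInter fun i => isClosed_le (by fun_prop) continuous_const).inter
      (isClosed_iInter fun j => isClosed_le ?_ continuous_const)))
    unfold ip
    fun_prop
  · apply (Metric.isBounded_closedBall (x := (0 : F k)) (r := 1)).subset
    rintro l ⟨h1, h2, h3, -⟩
    rw [mem_closedBall_zero_iff, Prod.norm_def, Prod.norm_def]
    refine max_le h1 (max_le h2 ?_)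
    rw [pi_norm_le_iff_of_nonneg zero_le_one]
    exact h3

/-- the body -/
noncomputable def K (N k : ℕ) : Set (F k) := polar (B k) (L N k)

variable {N k : ℕ}

theorem norm_unit {p : ℂ} (hp : p ≠ 0) : ‖(‖p‖⁻¹ : ℝ) • p‖ = 1 := by
  rw [norm_smul, norm_inv, norm_norm, inv_mul_cancel₀ (norm_ne_zero_iff.2 hp)]

theorem ip_m_le {N : ℕ} (j : Fin N) {q : ℂ} (hq : ‖q‖ ≤ 1) : ip (m N j) q ≤ 1 := by
  have := ip_le (m N j) q
  rw [norm_m] at this
  linarith

theorem mem_L_of_left (hN : 5 ≤ N) {p : ℂ} (hp : ‖p‖ ≤ 1) {w : Fin k → ℝ} (hw : ∀ i, ‖w i‖ ≤ 1) :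
    ((p, 0, w) : F k) ∈ L N k := by
  refine ⟨hp, by simp, hw, fun j => ?_⟩
  have := ip_m_le j hp
  have := cos_pos_of hN
  simp only [ip_zero_right]
  linarith

theorem mem_L_of_right (hN : 5 ≤ N) {q : ℂ} (hq : ‖q‖ ≤ 1) {w : Fin k → ℝ}
    (hw : ∀ i, ‖w i‖ ≤ 1) : ((0, q, w) : F k) ∈ L N k := by
  refine ⟨by simp, hq, hw, fun j => ?_⟩
  have := ip_m_le j hq
  have := cos_pos_of hN
  simp only [ip_zero_right]
  linarith

theorem zero_mem (w : Fin k → ℝ) (hw : w = 0) : ∀ i, ‖w i‖ ≤ 1 := by
  intro i; simp [hw]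

/-- points of `K` have small coordinates -/
theorem norm_fst_le (hN : 5 ≤ N) {x : F k} (hx : x ∈ K N k) : ‖x.1‖ ≤ 1 := by
  by_cases h : x.1 = 0
  · simp [h]
  · have h1 := hx _ (mem_L_of_left hN (norm_unit h).le (w := 0) (by simp))
    simp only [B, ip_zero_left, Pi.zero_apply, zero_mul, Finset.sum_const_zero, add_zero] at h1
    rw [ip_comm, ip_smul_right, ip_self] at h1
    have h2 : (0 : ℝ) < ‖x.1‖ := norm_pos_iff.2 h
    have h3 : ‖x.1‖⁻¹ * ‖x.1‖ ^ 2 = ‖x.1‖ := by field_simp
    linarith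

theorem norm_snd_le (hN : 5 ≤ N) {x : F k} (hx : x ∈ K N k) : ‖x.2.1‖ ≤ 1 := by
  by_cases h : x.2.1 = 0
  · simp [h]
  · have h1 := hx _ (mem_L_of_right hN (norm_unit h).le (w := 0) (by simp))
    simp only [B, ip_zero_left, Pi.zero_apply, zero_mul, Finset.sum_const_zero, add_zero,
      zero_add] at h1
    rw [ip_comm, ip_smul_right, ip_self] at h1
    have h2 : (0 : ℝ) < ‖x.2.1‖ := norm_pos_iff.2 h
    have h3 : ‖x.2.1‖⁻¹ * ‖x.2.1‖ ^ 2 = ‖x.2.1‖ := by field_simp
    linarith

theorem norm_single_le (i : Fin k) {s : ℝ} (hs : ‖s‖ ≤ 1) (i' : Fin k) :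
    ‖(Pi.single i s : Fin k → ℝ) i'‖ ≤ 1 := by
  by_cases h : i' = i
  · subst h; simpa using hs
  · rw [Pi.single_eq_of_ne h]; simp

theorem norm_trd_le (hN : 5 ≤ N) {x : F k} (hx : x ∈ K N k) (i : Fin k) : ‖x.2.2 i‖ ≤ 1 := by
  have h1 := hx _ (mem_L_of_left hN (p := 0) (by simp) (norm_single_le i (s := 1) (by simp)))
  have h2 := hx _ (mem_L_of_left hN (p := 0) (by simp) (norm_single_le i (s := -1) (by simp)))
  simp [B, ip_zero_left, Pi.single_apply] at h1 h2
  rw [Real.norm_eq_abs, abs_le]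
  constructor <;> linarith

theorem isCompact_K (hN : 5 ≤ N) : IsCompact (K N k) := by
  apply Metric.isCompact_of_isClosed_isBounded
  · exact isClosed_polar (continuous_B k)
  · apply (Metric.isBounded_closedBall (x := (0 : F k)) (r := 1)).subset
    intro x hx
    rw [mem_closedBall_zero_iff, Prod.norm_def, Prod.norm_def]
    refine max_le (norm_fst_le hN hx) (max_le (norm_snd_le hN hx) ?_)
    rw [pi_norm_le_iff_of_nonneg zero_le_one]
    exact norm_trd_le hN hx

theorem convex_K : Convex ℝ (K N k) := convex_polar (B_lin k)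

theorem zero_mem_interior : (0 : F k) ∈ interior (K N k) := by
  unfold K
  rw [interior_polar (isCompact_L N k) (continuous_B k) (B_lin k)]
  intro l _
  have := B_lin k l 0 0 0 0
  simp at this
  rw [this]
  norm_num

/-- the illuminating points -/
noncomputable def pt (N k : ℕ) : Fin N ⊕ (Fin k × Bool) → F k
  | .inl j => (m N j, 0, 0)
  | .inr (i, s) => (0, 0, Pi.single i (if s then 1 else -1))

/-- the witnesses -/
noncomputable def wt (N k : ℕ) : Fin N ⊕ (Fin k × Bool) → F k
  | .inl j => (0, m N j, 0)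
  | .inr (i, s) => (0, 0, Pi.single i (if s then -1 else 1))

theorem abs_sgn (s : Bool) : ‖(if s then (1 : ℝ) else -1)‖ ≤ 1 := by
  cases s <;> simp

theorem abs_sgn' (s : Bool) : ‖(if s then (-1 : ℝ) else 1)‖ ≤ 1 := by
  cases s <;> simp

theorem B_left (l : F k) (p : ℂ) : B k l (p, 0, 0) = ip l.1 p := by
  simp [B, ip_zero_right]

theorem B_mid (l : F k) (q : ℂ) : B k l (0, q, 0) = ip l.2.1 q := by
  simp [B, ip_zero_right]

theorem B_right (l : F k) (i : Fin k) (s : ℝ) : B k l (0, 0, Pi.single i s) = l.2.2 i * s := by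
  simp [B, ip_zero_right, Pi.single_apply]

theorem pt_mem (i : Fin N ⊕ (Fin k × Bool)) : pt N k i ∈ K N k := by
  intro l hl
  rcases i with j | ⟨i, s⟩
  · simp only [pt, B_left]
    rw [ip_comm]
    exact ip_m_le j hl.1
  · simp only [pt, B_right]
    have h := abs_le.1 (hl.2.2.1 i)
    cases s <;> simp <;> linarith

theorem wt_mem (i : Fin N ⊕ (Fin k × Bool)) : wt N k i ∈ K N k := by
  intro l hl
  rcases i with j | ⟨i, s⟩
  · simp only [wt, B_mid]
    rw [ip_comm]
    exact ip_m_le j hl.2.1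
  · simp only [wt, B_right]
    have h := abs_le.1 (hl.2.2.1 i)
    cases s <;> simp <;> linarith

/-- the witness `i` shares a supporting hyperplane with every `pt j`, `j ≠ i`. -/
theorem share (hN : 5 ≤ N) (i j : Fin N ⊕ (Fin k × Bool)) (hij : j ≠ i) :
    ∃ l ∈ L N k, B k l (wt N k i) = 1 ∧ B k l (pt N k j) = 1 := by
  have hc := cos_pos_of hN
  rcases i with a | ⟨a, s⟩ <;> rcases j with b | ⟨b, t⟩
  · -- both in the circles
    have hab : b ≠ a := fun h => hij (by rw [h])
    refine ⟨(m N b, m N a, 0), ⟨(norm_m b).le, (norm_m a).le, by simp, fun j => ?_⟩, ?_, ?_⟩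
    · by_cases hj : j = b
      · subst hj
        have h1 := ip_m_ne hab
        have h2 := ip_m_le j (norm_m (N := N) j).le
        simp only
        linarith
      · have h1 := ip_m_ne hj
        have h2 := ip_m_le j (norm_m a).le
        simp only
        linarith
    · simp only [wt, B_mid, ip_m_self]
    · simp only [pt, B_left, ip_m_self]
  · refine ⟨(0, m N a, Pi.single b (if t then 1 else -1)),
      mem_L_of_right hN (norm_m a).le (norm_single_le b (abs_sgn t)), ?_, ?_⟩
    · simp only [wt, B_mid, ip_m_self]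
    · simp only [pt, B_right]
      cases t <;> simp
  · refine ⟨(m N b, 0, Pi.single a (if s then -1 else 1)),
      mem_L_of_left hN (norm_m b).le (norm_single_le a (abs_sgn' s)), ?_, ?_⟩
    · simp only [wt, B_right]
      cases s <;> simp
    · simp only [pt, B_left, ip_m_self]
  · by_cases hab : b = a
    · subst hab
      have hst : s = !t := by
        cases s <;> cases t <;> simp_all
      subst hst
      refine ⟨(0, 0, Pi.single b (if t then 1 else -1)),
        mem_L_of_left hN (by simp) (norm_single_le b (abs_sgn t)), ?_, ?_⟩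
      · simp only [wt, B_right]
        cases t <;> simp
      · simp only [pt, B_right]
        cases t <;> simp
    · refine ⟨(0, 0, Pi.single a (if s then -1 else 1) + Pi.single b (if t then 1 else -1)),
        mem_L_of_left hN (by simp) ?_, ?_, ?_⟩
      · intro i'
        by_cases h1 : i' = a
        · subst h1
          rw [Pi.add_apply, Pi.single_eq_same, Pi.single_eq_of_ne (Ne.symm hab), add_zero]
          exact abs_sgn' s
        · rw [Pi.add_apply, Pi.single_eq_of_ne h1, zero_add]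
          exact norm_single_le b (abs_sgn t) i'
      · simp only [wt, B_right, Pi.add_apply, Pi.single_eq_same,
          Pi.single_eq_of_ne (Ne.symm hab)]
        cases s <;> simp
      · simp only [pt, B_right, Pi.add_apply, Pi.single_eq_same, Pi.single_eq_of_ne hab]
        cases t <;> simp

/-- no point of `K` shares a supporting hyperplane with every `pt j` -/
theorem not_share_all (hN : 5 ≤ N) {x : F k} (hx : x ∈ K N k)
    (h : ∀ j, ∃ l ∈ L N k, B k l x = 1 ∧ B k l (pt N k j) = 1) : False := by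
  have hc := cos_pos_of hN
  -- the last coordinates vanish
  have hz : x.2.2 = 0 := by
    by_contra hne
    obtain ⟨i, hi⟩ := Function.ne_iff.1 hne
    rw [Pi.zero_apply] at hi
    -- the point `-sign(x i) e i`
    obtain ⟨s, hs⟩ : ∃ s : Bool, 0 < x.2.2 i * (if s then (-1 : ℝ) else 1) := by
      rcases lt_or_gt_of_ne hi with h | h
      · exact ⟨true, by simp; linarith⟩
      · exact ⟨false, by simp; linarith⟩
    obtain ⟨l, hl, h1, h2⟩ := h (.inr (i, s))
    simp only [pt, B_right] at h2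
    set σ : ℝ := if s then (1 : ℝ) else -1 with hσ
    have hσ2 : σ * σ = 1 := by rw [hσ]; cases s <;> simp
    have hσ3 : (if s then (-1 : ℝ) else 1) = -σ := by rw [hσ]; cases s <;> simp
    rw [hσ3] at hs
    have hli : l.2.2 i = σ := by
      have : l.2.2 i * σ * σ = σ := by rw [h2, one_mul]
      rwa [mul_assoc, hσ2, mul_one] at this
    have h3 := hx (l.1, l.2.1, Function.update l.2.2 i (-σ)) ⟨hl.1, hl.2.1, (by
      intro i'
      by_cases hi' : i' = i
      · subst hi'
        simp only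
        rw [Function.update_self, ← hli, norm_neg]
        exact hl.2.2.1 _
      · simp only
        rw [Function.update_of_ne hi']
        exact hl.2.2.1 _), hl.2.2.2⟩
    have h4 : B k (l.1, l.2.1, Function.update l.2.2 i (-σ)) x =
        B k l x - 2 * σ * x.2.2 i := by
      simp only [B]
      have e1 : ∑ i', Function.update l.2.2 i (-σ) i' * x.2.2 i' =
          ∑ i', l.2.2 i' * x.2.2 i' - 2 * σ * x.2.2 i := by
        rw [← Finset.add_sum_erase _ _ (Finset.mem_univ i),
          ← Finset.add_sum_erase (Finset.univ) (fun i' => l.2.2 i' * x.2.2 i') (Finset.mem_univ i),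
          Function.update_self, hli]
        have e2 : ∑ i' ∈ Finset.univ.erase i, Function.update l.2.2 i (-σ) i' * x.2.2 i' =
            ∑ i' ∈ Finset.univ.erase i, l.2.2 i' * x.2.2 i' := by
          refine Finset.sum_congr rfl fun i' hi' => ?_
          rw [Function.update_of_ne (Finset.ne_of_mem_erase hi')]
        rw [e2]
        ring
      rw [e1]
      ring
    rw [h4, h1] at h3
    nlinarith
  -- the functionals at the vertices
  have key : ∀ j : Fin N, ∃ β : ℂ, ‖β‖ ≤ 1 ∧ ip (m N j) β ≤ cos (2 * π / N) ∧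
      ip (m N j) x.1 + ip β x.2.1 = 1 := by
    intro j
    obtain ⟨l, hl, h1, h2⟩ := h (.inl j)
    simp only [pt, B_left] at h2
    have h3 : l.1 = m N j := eq_of_ip_eq_one hl.1 (norm_m j).le h2
    refine ⟨l.2.1, hl.2.1, ?_, ?_⟩
    · have h4 := hl.2.2.2 j
      rw [h3, ip_m_self] at h4
      linarith
    · simp only [B, hz, Pi.zero_apply, mul_zero, Finset.sum_const_zero, add_zero] at h1
      rw [h3] at h1
      exact h1
  have hq := norm_snd_le hN hx
  have hle : ∀ β : ℂ, ‖β‖ ≤ 1 → ip β x.2.1 ≤ 1 := by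
    intro β hβ
    have h1 := ip_le β x.2.1
    nlinarith [norm_nonneg β, norm_nonneg x.2.1]
  -- the first coordinate vanishes
  have hp : x.1 = 0 := by
    by_contra hne
    obtain ⟨j, hj⟩ := exists_close (N := N) (by omega) (q := -((‖x.1‖⁻¹ : ℝ) • x.1))
      (by rw [norm_neg]; exact norm_unit hne)
    rw [ip_neg_right, ip_smul_right] at hj
    obtain ⟨β, h1, -, h3⟩ := key j
    have h4 := hle β h1
    have h5 : 0 ≤ ip (m N j) x.1 := by linarith
    have h6 : 0 ≤ ‖x.1‖⁻¹ * ip (m N j) x.1 := by positivity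
    linarith
  -- the second coordinate is a unit vector
  have hj0 : (0 : ℕ) < N := by omega
  have hq1 : ‖x.2.1‖ = 1 := by
    obtain ⟨β, h1, -, h3⟩ := key ⟨0, hj0⟩
    rw [hp, ip_zero_right, zero_add] at h3
    have h4 := ip_le β x.2.1
    nlinarith [norm_nonneg β, norm_nonneg x.2.1]
  obtain ⟨j, hj⟩ := exists_close (N := N) (by omega) hq1
  obtain ⟨β, h1, h2, h3⟩ := key j
  rw [hp, ip_zero_right, zero_add] at h3
  have h4 : β = x.2.1 := eq_of_ip_eq_one h1 hq h3
  rw [h4] at h2
  linarith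

/-- `pt i` and `wt i` share no supporting hyperplane -/
theorem not_share_self (hN : 5 ≤ N) (i : Fin N ⊕ (Fin k × Bool)) {l : F k} (hl : l ∈ L N k) :
    ¬ (B k l (wt N k i) = 1 ∧ B k l (pt N k i) = 1) := by
  rintro ⟨h1, h2⟩
  rcases i with a | ⟨a, s⟩
  · simp only [wt, pt, B_mid, B_left] at h1 h2
    have h3 := hl.2.2.2 a
    rw [ip_comm (m N a) l.1, ip_comm (m N a) l.2.1, h1, h2] at h3
    linarith [cos_lt_one_of (N := N) (by omega)]
  · simp only [wt, pt, B_right] at h1 h2
    cases s <;> simp at h1 h2 <;> linarith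

theorem exists_support (hN : 5 ≤ N) (x : F k) (i : Fin N ⊕ (Fin k × Bool)) (hx : x = pt N k i ∨ x = wt N k i) :
    ∃ l ∈ L N k, B k l x = 1 := by
  rcases hx with rfl | rfl
  · rcases i with j | ⟨i, s⟩
    · refine ⟨(m N j, 0, 0), mem_L_of_left hN (norm_m j).le (by simp), ?_⟩
      simp only [pt, B_left, ip_m_self]
    · refine ⟨(0, 0, Pi.single i (if s then 1 else -1)),
        mem_L_of_left hN (by simp) (norm_single_le i (abs_sgn s)), ?_⟩
      simp only [pt, B_right]
      cases s <;> simp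
  · rcases i with j | ⟨i, s⟩
    · refine ⟨(0, m N j, 0), mem_L_of_right hN (norm_m j).le (by simp), ?_⟩
      simp only [wt, B_mid, ip_m_self]
    · refine ⟨(0, 0, Pi.single i (if s then -1 else 1)),
        mem_L_of_left hN (by simp) (norm_single_le i (abs_sgn' s)), ?_⟩
      simp only [wt, B_right]
      cases s <;> simp

/-- **Inner illumination.** In dimension `k + 4` there are convex bodies with primitive inner
illuminating sets of `N + 2 k` points, for every `N ≥ 5`. -/
theorem exists_inner (k N : ℕ) (hN : 5 ≤ N) :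
    ∃ K A : Set (EuclideanSpace ℝ (Fin (k + 4))), IsCompact K ∧ Convex ℝ K ∧
      (interior K).Nonempty ∧ A.Finite ∧ A.ncard = N + 2 * k ∧ InnerIlluminating K A ∧
      ∀ C, C ⊂ A → ¬ InnerIlluminating K C := by
  have hdim : Module.finrank ℝ (EuclideanSpace ℝ (Fin (k + 4))) = Module.finrank ℝ (F k) := by
    simp [F, Complex.finrank_real_complex]
    ring
  let e : EuclideanSpace ℝ (Fin (k + 4)) ≃L[ℝ] F k := ContinuousLinearEquiv.ofFinrankEq hdim
  have hL := isCompact_L N k
  have hB := continuous_B k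
  have hlin := B_lin k
  obtain ⟨A, h1, h2, h3, h4⟩ := primitive_inner e (K := K N k) (a := pt N k)
    (fun i => (mem_frontier_polar hL hB hlin).2
      ⟨pt_mem i, exists_support hN _ i (Or.inl rfl)⟩)
    (fun x hx => by
      by_contra hcon
      push Not at hcon
      refine not_share_all hN ((mem_frontier_polar hL hB hlin).1 hx).1 fun j => ?_
      have h5 := mt (illum_polar hL hB hlin ((mem_frontier_polar hL hB hlin).1 hx).1
        (pt_mem j)).2
      have h6 := h5 (by
        rintro ⟨ε, h7, h8, h9⟩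
        exact hcon j ε h7 h8 h9)
      push Not at h6
      exact h6)
    (fun i => ⟨wt N k i, (mem_frontier_polar hL hB hlin).2
      ⟨wt_mem i, exists_support hN _ i (Or.inr rfl)⟩, fun j hj h5 => by
        obtain ⟨l, hl, h6⟩ := share hN i j hj
        exact (illum_polar hL hB hlin (wt_mem i) (pt_mem j)).1 h5 l hl h6⟩)
  refine ⟨e ⁻¹' K N k, A, ?_, ?_, ?_, h1, ?_, h3, h4⟩
  · exact e.toHomeomorph.isCompact_preimage.2 (isCompact_K hN)
  · exact convex_K.linear_preimage e.toLinearEquiv.toLinearMap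
  · have hint : interior (e ⁻¹' K N k) = e ⁻¹' interior (K N k) :=
      (e.toHomeomorph.preimage_interior _).symm
    refine ⟨0, ?_⟩
    rw [hint]
    simpa using zero_mem_interior (N := N) (k := k)
  · rw [h2]
    simp
    ring

end Pool.Agent.H899R2.Illum
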