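import Pool.Agent.H899R2.Illum.Basic
import Pool.Agent.H899R2.Illum.Polar

set_option autoImplicit false

namespace Pool.Agent.H899R2.Illum

open Real Topology

/-- the model space `ℝ² × ℝᵏ` -/
abbrev G (k : ℕ) := ℂ × (Fin k → ℝ)

/-- the gauge of the bicone -/
noncomputable def gau (k : ℕ) (x : G k) : ℝ := ‖x.1‖ + ∑ i, |x.2 i|

theorem continuous_gau (k : ℕ) : Continuous (gau k) := by
  unfold gau
  fun_prop

theorem gau_smul (k : ℕ) (t : ℝ) (x : G k) : gau k (t • x) = |t| * gau k x := by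
  simp only [gau, Prod.smul_fst, Prod.smul_snd, norm_smul, Real.norm_eq_abs, Pi.smul_apply,
    smul_eq_mul, abs_mul, mul_add, Finset.mul_sum]

theorem gau_add (k : ℕ) (x y : G k) : gau k (x + y) ≤ gau k x + gau k y := by
  have h1 := norm_add_le x.1 y.1
  have h2 : ∑ i, |x.2 i + y.2 i| ≤ ∑ i, (|x.2 i| + |y.2 i|) :=
    Finset.sum_le_sum fun i _ => abs_add_le _ _
  rw [Finset.sum_add_distrib] at h2
  simp only [gau, Prod.fst_add, Prod.snd_add, Pi.add_apply]
  linarith

/-- the bicone -/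
def D (k : ℕ) : Set (G k) := {x | gau k x ≤ 1}

theorem isClosed_D (k : ℕ) : IsClosed (D k) := isClosed_le (continuous_gau k) continuous_const

theorem convex_D (k : ℕ) : Convex ℝ (D k) := by
  intro x hx y hy a b ha hb hab
  have h1 := gau_add k (a • x) (b • y)
  rw [gau_smul, gau_smul, abs_of_nonneg ha, abs_of_nonneg hb] at h1
  have hx' : gau k x ≤ 1 := hx
  have hy' : gau k y ≤ 1 := hy
  show gau k (a • x + b • y) ≤ 1
  nlinarith

theorem interior_D (k : ℕ) : interior (D k) = {x | gau k x < 1} := by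
  apply Set.Subset.antisymm
  · intro x hx
    by_contra hcon
    have h0 : x ∈ D k := interior_subset hx
    have h1 : gau k x = 1 := le_antisymm h0 (not_lt.1 hcon)
    have h2 : Filter.Tendsto (fun t : ℝ => t • x) (𝓝 1) (𝓝 x) := by
      have : Continuous (fun t : ℝ => t • x) := by fun_prop
      have h3 := this.tendsto 1
      simpa using h3
    have h4 : ∀ᶠ t : ℝ in 𝓝 1, t • x ∈ interior (D k) := h2 (isOpen_interior.mem_nhds hx)
    obtain ⟨t, ht, hgt⟩ : ∃ t : ℝ, t • x ∈ interior (D k) ∧ 1 < t := by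
      have h5 : ∃ᶠ t : ℝ in 𝓝 1, 1 < t := frequently_gt_nhds (1 : ℝ)
      exact (h5.and_eventually h4).exists.imp fun t h => ⟨h.2, h.1⟩
    have h6' : t • x ∈ D k := interior_subset ht
    have h6 : gau k (t • x) ≤ 1 := h6'
    rw [gau_smul, h1, abs_of_pos (by linarith)] at h6
    linarith
  · apply interior_maximal
    · intro x hx
      have hx' : gau k x < 1 := hx
      exact hx'.le
    · exact isOpen_lt (continuous_gau k) continuous_const

theorem mem_frontier_D (k : ℕ) {x : G k} : x ∈ frontier (D k) ↔ gau k x = 1 := by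
  rw [(isClosed_D k).frontier_eq, interior_D, Set.mem_sdiff]
  constructor
  · rintro ⟨h1, h2⟩
    exact le_antisymm h1 (not_lt.1 h2)
  · intro h
    exact ⟨h.le, fun h2 => absurd h2 (by simp [h])⟩

theorem isCompact_D (k : ℕ) : IsCompact (D k) := by
  apply Metric.isCompact_of_isClosed_isBounded (isClosed_D k)
  apply (Metric.isBounded_closedBall (x := (0 : G k)) (r := 1)).subset
  intro x hx
  have hx' : ‖x.1‖ + ∑ i, |x.2 i| ≤ 1 := hx
  have h0 : 0 ≤ ∑ i, |x.2 i| := Finset.sum_nonneg fun i _ => abs_nonneg _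
  rw [mem_closedBall_zero_iff, Prod.norm_def]
  refine max_le (by linarith) ?_
  rw [pi_norm_le_iff_of_nonneg zero_le_one]
  intro i
  have h1 : |x.2 i| ≤ ∑ i, |x.2 i| :=
    Finset.single_le_sum (f := fun i => |x.2 i|) (fun i _ => abs_nonneg _) (Finset.mem_univ i)
  rw [Real.norm_eq_abs]
  linarith [norm_nonneg x.1]

theorem zero_mem_interior_D (k : ℕ) : (0 : G k) ∈ interior (D k) := by
  rw [interior_D]
  simp [gau]

/-- the sum of absolute values of `single i s + single j t` for `i ≠ j`, or `s t ≥ 0`. -/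
theorem sum_abs_single {k : ℕ} (i : Fin k) (s : ℝ) :
    ∑ i', |(Pi.single i s : Fin k → ℝ) i'| = |s| := by
  rw [Finset.sum_eq_single i]
  · simp
  · intro b _ hb
    rw [Pi.single_eq_of_ne hb, abs_zero]
  · simp

/-- sum of absolute values after changing coordinate `i` -/
theorem sum_abs_add_single {k : ℕ} (z : Fin k → ℝ) (i : Fin k) (s : ℝ) :
    ∑ i', |(z + Pi.single i s : Fin k → ℝ) i'| = ∑ i', |z i'| - |z i| + |z i + s| := by
  rw [← Finset.add_sum_erase _ _ (Finset.mem_univ i),
    ← Finset.add_sum_erase (Finset.univ) (fun i' => |z i'|) (Finset.mem_univ i)]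
  have e : ∑ i' ∈ Finset.univ.erase i, |(z + Pi.single i s : Fin k → ℝ) i'| =
      ∑ i' ∈ Finset.univ.erase i, |z i'| := by
    refine Finset.sum_congr rfl fun i' hi' => ?_
    rw [Pi.add_apply, Pi.single_eq_of_ne (Finset.ne_of_mem_erase hi'), add_zero]
  rw [e, Pi.add_apply, Pi.single_eq_same]
  ring

variable {N k : ℕ}

/-- the illuminating directions -/
noncomputable def dir (N k : ℕ) (i₀ : Fin k) : Fin N ⊕ (Fin k × Bool) → G k
  | .inl j => ((cos (2 * π / N))⁻¹ • m N j, Pi.single i₀ 1)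
  | .inr (i, s) => (0, Pi.single i (if s then 1 else -1))

/-- the witnesses -/
noncomputable def wit (N k : ℕ) : Fin N ⊕ (Fin k × Bool) → G k
  | .inl j => (-(m N j), 0)
  | .inr (i, s) => (0, Pi.single i (if s then -1 else 1))

theorem gau_wit (i : Fin N ⊕ (Fin k × Bool)) : gau k (wit N k i) = 1 := by
  rcases i with j | ⟨i, s⟩
  · simp [gau, wit, norm_m]
  · simp only [gau, wit, sum_abs_single]
    cases s <;> simp

theorem dir_ne_zero (i₀ : Fin k) (i : Fin N ⊕ (Fin k × Bool)) : dir N k i₀ i ≠ 0 := by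
  rcases i with j | ⟨i, s⟩
  · intro h
    have := congrArg (fun z : G k => z.2 i₀) h
    simp [dir] at this
  · intro h
    have := congrArg (fun z : G k => z.2 i) h
    simp only [dir, Pi.single_eq_same, Prod.snd_zero, Pi.zero_apply] at this
    cases s <;> simp at this

theorem dir_illum (hN : 5 ≤ N) (i₀ : Fin k) {x : G k} (hx : gau k x = 1) :
    ∃ i, ∃ ε : ℝ, 0 < ε ∧ gau k (x + ε • dir N k i₀ i) < 1 := by
  have hc := cos_pos_of hN
  have hc1 := cos_lt_one_of (N := N) (by omega)
  set c := cos (2 * π / N) with hcdef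
  by_cases hz : x.2 = 0
  · have hp : ‖x.1‖ = 1 := by simpa [gau, hz] using hx
    obtain ⟨j, hj⟩ := exists_close (N := N) (by omega) (q := -x.1) (by rw [norm_neg, hp])
    rw [ip_neg_right, ← hcdef] at hj
    set s := - ip (m N j) x.1 with hs
    have hs1 : s ≤ 1 := by
      have := ip_le (m N j) (-x.1)
      rw [norm_m, norm_neg, hp, ip_neg_right] at this
      linarith
    -- choose ε = (s - c)
    refine ⟨.inl j, (s - c) * c, by nlinarith, ?_⟩
    set ε := (s - c) * c with hε
    have hε0 : 0 < ε := by nlinarith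
    have hε1 : ε < 1 := by nlinarith
    have e1 : gau k (x + ε • dir N k i₀ (.inl j)) = ‖x.1 + (ε * c⁻¹) • m N j‖ + ε := by
      simp only [gau, dir, Prod.fst_add, Prod.snd_add, Prod.smul_fst, Prod.smul_snd, hz, zero_add,
        smul_smul]
      rw [← Pi.single_smul, sum_abs_single, smul_eq_mul, mul_one, abs_of_pos hε0]
    rw [e1]
    have e2 : ‖x.1 + (ε * c⁻¹) • m N j‖ ^ 2 = 1 - 2 * (s - c) * s + (s - c) ^ 2 := by
      rw [norm_add_sq, hp, ip_smul_right, norm_smul, norm_m, ip_comm]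
      have e3 : ε * c⁻¹ = s - c := by
        rw [hε, mul_assoc, mul_inv_cancel₀ hc.ne', mul_one]
      rw [e3, mul_one, Real.norm_eq_abs, sq_abs]
      have : ip (m N j) x.1 = -s := by rw [hs]; ring
      rw [this]
      ring
    have e4 : ‖x.1 + (ε * c⁻¹) • m N j‖ ^ 2 < (1 - ε) ^ 2 := by
      rw [e2, hε]
      nlinarith [mul_pos (sub_pos.2 hj) (sub_pos.2 hc1), mul_pos (sub_pos.2 hj) hc,
        mul_pos (sub_pos.2 hj) (sub_pos.2 hj), mul_nonneg hc.le (sub_nonneg.2 hs1),
        sq_nonneg ((s - c) * c)]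
    have e5 := abs_lt_of_sq_lt_sq e4 (by linarith)
    rw [abs_of_nonneg (norm_nonneg _)] at e5
    linarith
  · obtain ⟨i, hi⟩ := Function.ne_iff.1 hz
    rw [Pi.zero_apply] at hi
    obtain ⟨s, hs⟩ : ∃ s : Bool, x.2 i * (if s then (1 : ℝ) else -1) = -|x.2 i| := by
      rcases lt_or_gt_of_ne hi with h | h
      · exact ⟨true, by rw [abs_of_neg h]; simp⟩
      · exact ⟨false, by rw [abs_of_pos h]; simp⟩
    refine ⟨.inr (i, s), |x.2 i|, abs_pos.2 hi, ?_⟩
    have e1 : gau k (x + |x.2 i| • dir N k i₀ (.inr (i, s))) =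
        ‖x.1‖ + (∑ i', |x.2 i'| - |x.2 i| + |x.2 i + |x.2 i| * (if s then 1 else -1)|) := by
      simp only [gau, dir, Prod.fst_add, Prod.snd_add, Prod.smul_fst, Prod.smul_snd, smul_zero,
        add_zero]
      rw [← Pi.single_smul, sum_abs_add_single, smul_eq_mul]
    have e2 : x.2 i + |x.2 i| * (if s then (1 : ℝ) else -1) = 0 := by
      cases s
      · simp at hs ⊢; linarith
      · simp at hs ⊢; linarith
    rw [e1, e2, abs_zero]
    have h0 := abs_pos.2 hi
    have : gau k x = ‖x.1‖ + ∑ i, |x.2 i| := rfl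
    linarith

theorem dir_wit (hN : 5 ≤ N) (i₀ : Fin k) (i j : Fin N ⊕ (Fin k × Bool)) (hij : j ≠ i) {ε : ℝ}
    (hε : 0 < ε) : 1 ≤ gau k (wit N k i + ε • dir N k i₀ j) := by
  have hc := cos_pos_of hN
  have hc1 := cos_lt_one_of (N := N) (by omega)
  set c := cos (2 * π / N) with hcdef
  have hcinv : 1 ≤ c⁻¹ := (one_le_inv₀ hc).2 hc1.le
  rcases i with a | ⟨a, s⟩ <;> rcases j with b | ⟨b, t⟩
  · have hab : b ≠ a := fun h => hij (by rw [h])
    have e1 : gau k (wit N k (.inl a) + ε • dir N k i₀ (.inl b)) =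
        ‖-(m N a) + (ε * c⁻¹) • m N b‖ + ε := by
      simp only [gau, wit, dir, Prod.fst_add, Prod.snd_add, Prod.smul_fst, Prod.smul_snd, zero_add,
        smul_smul]
      rw [← Pi.single_smul, sum_abs_single, smul_eq_mul, mul_one, abs_of_pos hε]
    rw [e1]
    have e2 : ‖-(m N a) + (ε * c⁻¹) • m N b‖ ^ 2 =
        1 - 2 * (ε * c⁻¹) * ip (m N b) (m N a) + (ε * c⁻¹) ^ 2 := by
      rw [norm_add_sq, norm_neg, norm_m, ip_smul_right, norm_smul, norm_m, ip_comm, ip_neg_right,
        mul_one, Real.norm_eq_abs, sq_abs]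
      ring
    have h1 := ip_m_ne hab
    rw [← hcdef] at h1
    have h2 : (ε * c⁻¹) * ip (m N b) (m N a) ≤ ε := by
      have h3 : (ε * c⁻¹) * ip (m N b) (m N a) ≤ (ε * c⁻¹) * c :=
        mul_le_mul_of_nonneg_left h1 (by positivity)
      have h3' : (ε * c⁻¹) * c = ε := by rw [mul_assoc, inv_mul_cancel₀ hc.ne', mul_one]
      linarith
    have h4 : ε ≤ ε * c⁻¹ := by nlinarith
    have h5 : (1 - ε) ^ 2 ≤ ‖-(m N a) + (ε * c⁻¹) • m N b‖ ^ 2 := by
      rw [e2]
      nlinarith
    have h6 := abs_le_of_sq_le_sq h5 (norm_nonneg _)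
    have h7 := le_abs_self (1 - ε)
    linarith
  · have e1 : gau k (wit N k (.inl a) + ε • dir N k i₀ (.inr (b, t))) = 1 + ε := by
      simp only [gau, wit, dir, Prod.fst_add, Prod.snd_add, Prod.smul_fst, Prod.smul_snd, zero_add,
        smul_zero, add_zero, norm_neg, norm_m]
      rw [← Pi.single_smul, sum_abs_single, smul_eq_mul]
      cases t <;> simp [abs_of_pos hε]
    rw [e1]; linarith
  · have e1 : gau k (wit N k (.inr (a, s)) + ε • dir N k i₀ (.inl b)) =
        ε * c⁻¹ + (1 - |(Pi.single a (if s then (-1 : ℝ) else 1) : Fin k → ℝ) i₀| +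
          |(Pi.single a (if s then (-1 : ℝ) else 1) : Fin k → ℝ) i₀ + ε|) := by
      simp only [gau, wit, dir, Prod.fst_add, Prod.snd_add, Prod.smul_fst, Prod.smul_snd, zero_add,
        smul_smul]
      rw [← Pi.single_smul, sum_abs_add_single, sum_abs_single, smul_eq_mul, mul_one, norm_smul,
        norm_m, mul_one, Real.norm_eq_abs, abs_of_nonneg (by positivity)]
      cases s <;> simp [hcdef]
    rw [e1]
    have h4 : ε ≤ ε * c⁻¹ := by nlinarith
    have h5 := abs_sub_abs_le_abs_sub ((Pi.single a (if s then (-1 : ℝ) else 1) : Fin k → ℝ) i₀)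
      (-ε)
    rw [sub_neg_eq_add, abs_neg, abs_of_pos hε] at h5
    linarith
  · have e1 : gau k (wit N k (.inr (a, s)) + ε • dir N k i₀ (.inr (b, t))) =
        1 - |(Pi.single a (if s then (-1 : ℝ) else 1) : Fin k → ℝ) b| +
          |(Pi.single a (if s then (-1 : ℝ) else 1) : Fin k → ℝ) b + ε * (if t then 1 else -1)| := by
      simp only [gau, wit, dir, Prod.fst_add, Prod.snd_add, Prod.smul_fst, Prod.smul_snd, zero_add,
        smul_zero, norm_zero]
      rw [← Pi.single_smul, sum_abs_add_single, sum_abs_single, smul_eq_mul]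
      cases s <;> simp
    rw [e1]
    by_cases hab : b = a
    · subst hab
      have hst : s = !t := by
        cases s <;> cases t <;> simp_all
      subst hst
      rw [Pi.single_eq_same]
      cases t
      · simp
        rw [show (-1 : ℝ) + -ε = -(1 + ε) by ring, abs_neg, abs_of_pos (by linarith)]
        linarith
      · simp
        rw [abs_of_pos (by linarith)]
        linarith
    · rw [Pi.single_eq_of_ne hab]
      simp

/-- **Outer illumination.** In dimension `k + 2 ≥ 3` there is a convex body having primitive outer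
illuminating sets of `N + 2 k` directions for every `N ≥ 5`. -/
theorem exists_outer (k : ℕ) (hk : 0 < k) :
    ∃ K : Set (EuclideanSpace ℝ (Fin (k + 2))), IsCompact K ∧ Convex ℝ K ∧
      (interior K).Nonempty ∧ ∀ N : ℕ, 5 ≤ N →
      ∃ U : Set (EuclideanSpace ℝ (Fin (k + 2))), U.Finite ∧ U.ncard = N + 2 * k ∧
        OuterIlluminating K U ∧ ∀ C, C ⊂ U → ¬ OuterIlluminating K C := by
  have hdim : Module.finrank ℝ (EuclideanSpace ℝ (Fin (k + 2))) = Module.finrank ℝ (G k) := by
    simp [G, Complex.finrank_real_complex]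
    ring
  let e : EuclideanSpace ℝ (Fin (k + 2)) ≃L[ℝ] G k := ContinuousLinearEquiv.ofFinrankEq hdim
  refine ⟨e ⁻¹' D k, e.toHomeomorph.isCompact_preimage.2 (isCompact_D k),
    (convex_D k).linear_preimage e.toLinearEquiv.toLinearMap, ?_, fun N hN => ?_⟩
  · have hint : interior (e ⁻¹' D k) = e ⁻¹' interior (D k) :=
      (e.toHomeomorph.preimage_interior _).symm
    refine ⟨0, ?_⟩
    rw [hint]
    simpa using zero_mem_interior_D k
  · obtain ⟨U, h1, h2, h3, h4⟩ := primitive_outer e (convex_D k) (isClosed_D k)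
      (u := dir N k ⟨0, hk⟩) (dir_ne_zero _)
      (fun x hx => by
        rw [mem_frontier_D] at hx
        rw [interior_D]
        exact dir_illum hN _ hx)
      (fun i => ⟨wit N k i, (mem_frontier_D k).2 (gau_wit i), fun j hj => by
        rintro ⟨ε, h0, h5⟩
        rw [interior_D] at h5
        exact absurd h5 (not_lt.2 (dir_wit hN _ i j hj h0))⟩)
    refine ⟨U, h1, ?_, h3, h4⟩
    rw [h2]
    simp
    ring

end Pool.Agent.H899R2.Illum
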